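import Pool.Agent.H65.Tourn

set_option autoImplicit false

open Classical in
theorem Pool.Agent.Results.MP_f0f309_al.Counter.result :
    ∃ (n : ℕ) (B : Matrix (Fin n) (Fin n) ℤ), 1 ≤ n ∧
    (∃ d : Fin n → ℤ, (∀ i, 0 < d i) ∧ (B * Matrix.diagonal d).transpose = -(B * Matrix.diagonal d)) ∧
    ∀ r : Fin n → Fin n → Prop, IsStrictTotalOrder (Fin n) r →
      ∀ A : Matrix (Fin n) (Fin n) ℤ,
        (∀ i j, r i j → A i j = B i j) → (∀ i, A i i = 2) → (∀ i j, r j i → A i j = - B i j) →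
        ∃ (m : ℕ) (c : Fin (m + 3) → Fin n), Function.Injective c ∧
          (∀ j k, j ≠ k → (B (c j) (c k) ≠ 0 ↔ j = k + 1 ∨ k = j + 1)) ∧
          ((∀ j, 0 < B (c j) (c (j + 1))) ∨ (∀ j, B (c j) (c (j + 1)) < 0)) ∧
          Even (Finset.univ.filter fun j => 0 < A (c j) (c (j + 1))).card :=
  Pool.Agent.H65.Tourn.main
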